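import Mathlib

/-!
# Coverings of the complete `k`-graph by complete `k`-partite `k`-graphs, multiplicity at most `l`

We prove the lower half of the conjectured order of magnitude for all `k ≥ 2` and `l ≥ 1`:
`m_{k,l}(n) ≥ c * n ^ (⌊k/2⌋ / l)` for all `n ≥ k`, with `c > 0` depending on `k, l` only.
-/

namespace Pool.Agent.Results.MP_f91e62_co.LowerBound

open Finset

/-- A complete `k`-partite `k`-graph on a subset of `[n]`, given by its `k` parts: pairwise
disjoint nonempty subsets of `[n] = Fin n`. -/
structure KPartite (k n : ℕ) where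
  part : Fin k → Finset (Fin n)
  disj : ∀ i j, i ≠ j → Disjoint (part i) (part j)
  nonempty : ∀ i, (part i).Nonempty

/-- `e` is an edge: `e = {x_1, …, x_k}` with `x_j` in the `j`-th part. -/
def KPartite.IsEdge {k n : ℕ} (H : KPartite k n) (e : Finset (Fin n)) : Prop :=
  ∃ x : Fin k → Fin n, (∀ j, x j ∈ H.part j) ∧ e = univ.image x

open Classical in
/-- The number of members `H i` of the family having `e` as an edge. -/
noncomputable def mult {k n m : ℕ} (H : Fin m → KPartite k n) (e : Finset (Fin n)) : ℕ :=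
  (univ.filter fun i => (H i).IsEdge e).card

/-- `H_1, …, H_m` form a `k`-partite covering of order `l`: every `k`-subset of `[n]` is an edge
of at least one and at most `l` of the `H_i`. -/
def IsCovering {k n m : ℕ} (l : ℕ) (H : Fin m → KPartite k n) : Prop :=
  ∀ e : Finset (Fin n), e.card = k → 1 ≤ mult H e ∧ mult H e ≤ l

/-- `m_{k,l}(n)`: the minimum `m` for which a covering of order `l` exists. -/
noncomputable def mkl (k l n : ℕ) : ℕ :=
  sInf {m | ∃ H : Fin m → KPartite k n, IsCovering l H}

/-! ### A covering exists -/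

theorem exists_covering (k l n : ℕ) (hl : 1 ≤ l) :
    ∃ m, ∃ H : Fin m → KPartite k n, IsCovering l H := by
  classical
  let S := {e : Finset (Fin n) // e.card = k}
  let E : S ≃ Fin (Fintype.card S) := Fintype.equivFin S
  let G : S → KPartite k n := fun e =>
    { part := fun j => {e.1.orderEmbOfFin e.2 j}
      disj := by
        intro i j hij
        rw [Finset.disjoint_singleton]
        intro h
        exact hij ((e.1.orderEmbOfFin e.2).injective h)
      nonempty := fun j => ⟨_, Finset.mem_singleton_self _⟩ }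
  have hG : ∀ (e : S) (f : Finset (Fin n)), (G e).IsEdge f ↔ f = e.1 := by
    intro e f
    constructor
    · rintro ⟨x, hx, rfl⟩
      have : x = fun j => e.1.orderEmbOfFin e.2 j := by
        funext j
        have := hx j
        simpa [G] using this
      rw [this]
      exact Finset.image_orderEmbOfFin_univ e.1 e.2
    · intro h
      refine ⟨fun j => e.1.orderEmbOfFin e.2 j, fun j => by simp [G], ?_⟩
      rw [h]
      exact (Finset.image_orderEmbOfFin_univ e.1 e.2).symm
  refine ⟨Fintype.card S, fun i => G (E.symm i), ?_⟩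
  intro e he
  have : mult (fun i => G (E.symm i)) e = 1 := by
    unfold mult
    rw [Finset.card_eq_one]
    refine ⟨E ⟨e, he⟩, ?_⟩
    ext i
    simp only [Finset.mem_filter, Finset.mem_univ, true_and, Finset.mem_singleton, hG]
    constructor
    · intro h
      have : E.symm i = ⟨e, he⟩ := Subtype.ext h.symm
      rw [← this, Equiv.apply_symm_apply]
    · intro h
      rw [h, Equiv.symm_apply_apply]
  rw [this]
  exact ⟨le_refl _, hl⟩

/-! ### The polynomial method -/

theorem key (s q l : ℕ) (hq : 2 ≤ q) {Y : Type} [Fintype Y]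
    (a b : Y → (Fin s → Fin q) → ℝ) (N : (Fin s → Fin q) → (Fin s → Fin q) → ℝ)
    (hN : ∀ P Q, N P Q = ∑ y, a y P * b y Q)
    (h0 : ∀ P Q, (∃ t, P t = Q t) → N P Q = 0)
    (h1 : ∀ P Q, (∀ t, P t ≠ Q t) → ∃ j : Fin l, N P Q = (j : ℝ) + 1) :
    q ^ s ≤ (1 + Fintype.card Y) ^ l := by
  classical
  let A : Option Y → (Fin s → Fin q) → ℝ := fun x P => match x with
    | none => 1
    | some y => a y P
  let F : (Fin l → Option Y) → (Fin s → Fin q) → ℝ := fun φ P => ∏ j, A (φ j) P
  let W : Submodule ℝ ((Fin s → Fin q) → ℝ) := Submodule.span ℝ (Set.range F)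
  have hF : ∀ φ, F φ ∈ W := fun φ => Submodule.subset_span ⟨φ, rfl⟩
  have hone : (fun _ => (1 : ℝ)) ∈ W := by
    have h := hF (fun _ => none)
    have h2 : F (fun _ => none) = fun _ => (1 : ℝ) := by
      funext P
      simp [F, A]
    rw [h2] at h
    exact h
  -- the polynomial in `N`
  have hpoly : ∀ Q, (fun P => ∏ j : Fin l, (1 - N P Q / ((j : ℝ) + 1))) ∈ W := by
    intro Q
    have h : (fun P => ∏ j : Fin l, (1 - N P Q / ((j : ℝ) + 1)))
        = ∑ φ : Fin l → Option Y,
          (∏ j : Fin l, (match φ j with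
            | none => (1 : ℝ)
            | some y => - b y Q / ((j : ℝ) + 1))) • F φ := by
      funext P
      have h2 : ∀ j : Fin l, (1 - N P Q / ((j : ℝ) + 1))
          = ∑ x : Option Y, (match x with
            | none => (1 : ℝ)
            | some y => - b y Q / ((j : ℝ) + 1)) * A x P := by
        intro j
        rw [Fintype.sum_option, hN]
        simp only [A, one_mul]
        rw [sub_eq_add_neg, Finset.sum_div, ← Finset.sum_neg_distrib]
        congr 1
        refine Finset.sum_congr rfl fun y _ => ?_
        ring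
      rw [Finset.prod_congr rfl fun j _ => h2 j, Finset.prod_univ_sum, Fintype.piFinset_univ,
        Finset.sum_apply]
      refine Finset.sum_congr rfl fun φ _ => ?_
      rw [Finset.prod_mul_distrib]
      rfl
    rw [h]
    exact Submodule.sum_mem _ fun φ _ => Submodule.smul_mem _ _ (hF φ)
  -- the disjointness function
  let D : (Fin s → Fin q) → (Fin s → Fin q) → ℝ :=
    fun Q P => ∏ t, (if P t = Q t then (0 : ℝ) else 1)
  have hD : ∀ Q, D Q ∈ W := by
    intro Q
    have h : D Q = (fun _ => (1 : ℝ)) - (fun P => ∏ j : Fin l, (1 - N P Q / ((j : ℝ) + 1))) := by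
      funext P
      simp only [Pi.sub_apply, D]
      by_cases hPQ : ∃ t, P t = Q t
      · obtain ⟨t, ht⟩ := hPQ
        rw [h0 P Q ⟨t, ht⟩]
        rw [Finset.prod_eq_zero (Finset.mem_univ t) (by simp [ht])]
        simp
      · push Not at hPQ
        obtain ⟨j, hj⟩ := h1 P Q hPQ
        rw [Finset.prod_eq_zero (s := (univ : Finset (Fin l))) (Finset.mem_univ j)]
        · rw [Finset.prod_eq_one fun t _ => by simp [hPQ t]]
          ring
        · rw [hj]
          have : ((j : ℝ) + 1) ≠ 0 := by positivity
          field_simp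
          ring
    rw [h]
    exact Submodule.sub_mem _ hone (hpoly Q)
  have hq1 : ((q : ℝ) - 1) ≠ 0 := by
    have : (2 : ℝ) ≤ q := by exact_mod_cast hq
    intro h
    linarith
  -- the delta functions
  have hdelta : ∀ Q, (fun P : Fin s → Fin q => if P = Q then (1 : ℝ) else 0) ∈ W := by
    intro Q
    have h : (fun P : Fin s → Fin q => if P = Q then (1 : ℝ) else 0)
        = ∑ R : Fin s → Fin q,
          (∏ t, (1 / ((q : ℝ) - 1) - if R t = Q t then 1 else 0)) • D R := by
      funext P
      rw [Finset.sum_apply]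
      have h2 : ∀ t, (if P t = Q t then (1 : ℝ) else 0)
          = ∑ r : Fin q, (1 / ((q : ℝ) - 1) - if r = Q t then 1 else 0)
            * (if P t = r then (0 : ℝ) else 1) := by
        intro t
        have e1 : ∀ r : Fin q, (1 / ((q : ℝ) - 1) - if r = Q t then 1 else 0)
            * (if P t = r then (0 : ℝ) else 1)
            = 1 / ((q : ℝ) - 1) - (if P t = r then 1 / ((q : ℝ) - 1) else 0)
              - (if r = Q t then (if P t = r then (0 : ℝ) else 1) else 0) := by
          intro r
          by_cases h4 : r = Q t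
          · rw [if_pos h4, if_pos h4]
            by_cases h3 : P t = r
            · rw [if_pos h3, if_pos h3]; ring
            · rw [if_neg h3, if_neg h3]; ring
          · rw [if_neg h4, if_neg h4]
            by_cases h3 : P t = r
            · rw [if_pos h3, if_pos h3]; ring
            · rw [if_neg h3, if_neg h3]; ring
        rw [Finset.sum_congr rfl fun r _ => e1 r]
        rw [Finset.sum_sub_distrib, Finset.sum_sub_distrib, Finset.sum_const,
          Finset.sum_ite_eq, Finset.sum_ite_eq']
        simp only [Finset.mem_univ, if_true, Finset.card_univ, Fintype.card_fin, nsmul_eq_mul]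
        by_cases h5 : P t = Q t
        · simp only [h5, if_true]
          field_simp
          ring
        · simp only [h5, if_false]
          field_simp
          ring
      have h3 : (if P = Q then (1 : ℝ) else 0) = ∏ t, (if P t = Q t then (1 : ℝ) else 0) := by
        by_cases h4 : P = Q
        · simp [h4]
        · rw [if_neg h4]
          obtain ⟨t, ht⟩ := Function.ne_iff.mp h4
          rw [Finset.prod_eq_zero (Finset.mem_univ t) (by simp [ht])]
      rw [h3, Finset.prod_congr rfl fun t _ => h2 t, Finset.prod_univ_sum, Fintype.piFinset_univ]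
      refine Finset.sum_congr rfl fun R _ => ?_
      rw [Finset.prod_mul_distrib]
      rfl
    rw [h]
    exact Submodule.sum_mem _ fun R _ => Submodule.smul_mem _ _ (hD R)
  have htop : W = ⊤ := by
    rw [eq_top_iff]
    intro g _
    have h : g = ∑ Q : Fin s → Fin q, g Q • (fun P : Fin s → Fin q => if P = Q then (1 : ℝ) else 0) := by
      funext P
      rw [Finset.sum_apply]
      simp
    rw [h]
    exact Submodule.sum_mem _ fun Q _ => Submodule.smul_mem _ _ (hdelta Q)
  have hfin := finrank_range_le_card (R := ℝ) F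
  have hcard : Set.finrank ℝ (Set.range F) = q ^ s := by
    have : Set.finrank ℝ (Set.range F) = Module.finrank ℝ W := rfl
    rw [this, htop, finrank_top, Module.finrank_fintype_fun_eq_card]
    simp
  rw [hcard] at hfin
  calc q ^ s ≤ Fintype.card (Fin l → Option Y) := hfin
    _ = (1 + Fintype.card Y) ^ l := by
      rw [Fintype.card_fun, Fintype.card_option, Fintype.card_fin, Nat.add_comm]

/-! ### Parts met by a set -/

variable {k n : ℕ}

/-- The set of (indices of) parts of `H` met by `A`. -/
def hit (H : KPartite k n) (A : Finset (Fin n)) : Finset (Fin k) :=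
  univ.filter fun j => (A ∩ H.part j).Nonempty

theorem hit_union (H : KPartite k n) (A B : Finset (Fin n)) :
    hit H (A ∪ B) = hit H A ∪ hit H B := by
  ext j
  simp only [hit, mem_filter, mem_univ, true_and, mem_union]
  rw [Finset.union_inter_distrib_right, Finset.union_nonempty]

theorem part_inj (H : KPartite k n) {i j : Fin k} {x : Fin n} (hi : x ∈ H.part i)
    (hj : x ∈ H.part j) : i = j := by
  by_contra h
  exact (Finset.disjoint_left.mp (H.disj i j h)) hi hj

theorem hit_card_le (H : KPartite k n) (A : Finset (Fin n)) : (hit H A).card ≤ A.card := by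
  classical
  have h : ∀ j : Fin k, ∃ x : Fin n, j ∈ hit H A → x ∈ A ∩ H.part j := by
    intro j
    by_cases hj : j ∈ hit H A
    · have h2 := hj
      simp only [hit, mem_filter, mem_univ, true_and] at h2
      obtain ⟨x, hx⟩ := h2
      exact ⟨x, fun _ => hx⟩
    · obtain ⟨x, _⟩ := H.nonempty j
      exact ⟨x, fun h => absurd h hj⟩
  choose f hf using h
  refine Finset.card_le_card_of_injOn f ?_ ?_
  · intro j hj
    exact (Finset.mem_inter.mp (hf j hj)).1
  · intro i hi j hj hij
    have h1 := (Finset.mem_inter.mp (hf i hi)).2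
    have h2 := (Finset.mem_inter.mp (hf j hj)).2
    rw [hij] at h1
    exact part_inj H h1 h2

theorem isEdge_iff (H : KPartite k n) (e : Finset (Fin n)) (he : e.card = k) :
    H.IsEdge e ↔ hit H e = univ := by
  classical
  constructor
  · rintro ⟨x, hx, rfl⟩
    rw [Finset.eq_univ_iff_forall]
    intro j
    simp only [hit, mem_filter, mem_univ, true_and]
    exact ⟨x j, Finset.mem_inter.mpr ⟨Finset.mem_image_of_mem x (Finset.mem_univ j), hx j⟩⟩
  · intro h
    have h2 : ∀ j : Fin k, ∃ x : Fin n, x ∈ e ∩ H.part j := by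
      intro j
      have := Finset.eq_univ_iff_forall.mp h j
      simp only [hit, mem_filter, mem_univ, true_and] at this
      exact this
    choose x hx using h2
    refine ⟨x, fun j => (Finset.mem_inter.mp (hx j)).2, ?_⟩
    symm
    apply Finset.eq_of_subset_of_card_le
    · intro y hy
      obtain ⟨j, _, rfl⟩ := Finset.mem_image.mp hy
      exact (Finset.mem_inter.mp (hx j)).1
    · rw [he, Finset.card_image_of_injective, Finset.card_univ, Fintype.card_fin]
      intro i j hij
      have h1 := (Finset.mem_inter.mp (hx i)).2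
      have h3 := (Finset.mem_inter.mp (hx j)).2
      have hij' : x i = x j := hij
      rw [hij'] at h1
      exact part_inj H h1 h3

open Classical in
theorem main_ineq {m l s q : ℕ} (H : Fin m → KPartite k n) (hH : IsCovering l H)
    (hs : s = k / 2) (hq : 2 ≤ q) (hn : s * q + 1 ≤ n) :
    q ^ s ≤ (1 + m * 2 ^ k) ^ l := by
  classical
  let f : Fin s × Fin q → Fin n := fun p =>
    ⟨(finProdFinEquiv p : Fin (s * q)).val, by
      have := (finProdFinEquiv p : Fin (s * q)).isLt
      omega⟩
  have hf : Function.Injective f := by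
    intro p p' h
    have h2 : (finProdFinEquiv p : Fin (s * q)).val = (finProdFinEquiv p' : Fin (s * q)).val := by
      have := congrArg Fin.val h
      exact this
    exact finProdFinEquiv.injective (Fin.ext h2)
  let z : Fin n := ⟨n - 1, by omega⟩
  have hz : ∀ p, f p ≠ z := by
    intro p h
    have h2 : (finProdFinEquiv p : Fin (s * q)).val = n - 1 := congrArg Fin.val h
    have := (finProdFinEquiv p : Fin (s * q)).isLt
    omega
  let Z : Finset (Fin n) := if k % 2 = 0 then ∅ else {z}
  have hZc : Z.card = k % 2 := by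
    by_cases h : k % 2 = 0
    · simp [Z, h]
    · simp [Z, h]; omega
  have hZf : ∀ p, f p ∉ Z := by
    intro p
    by_cases h : k % 2 = 0
    · simp [Z, h]
    · simp [Z, h, hz p]
  let S : (Fin s → Fin q) → Finset (Fin n) := fun P => univ.image fun t => f (t, P t)
  have hSc : ∀ P, (S P).card = s := by
    intro P
    rw [Finset.card_image_of_injective, Finset.card_univ, Fintype.card_fin]
    intro t t' h
    exact (Prod.ext_iff.mp (hf h)).1
  have hSZ : ∀ P, Disjoint (S P) Z := by
    intro P
    rw [Finset.disjoint_left]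
    intro x hx
    obtain ⟨t, _, rfl⟩ := Finset.mem_image.mp hx
    exact hZf _
  have hk : k = 2 * s + k % 2 := by omega
  have hcardA : ∀ P Q : Fin s → Fin q, (∃ t, P t = Q t) → (S P ∪ (S Q ∪ Z)).card < k := by
    rintro P Q ⟨t, ht⟩
    have h1 := Finset.card_union_add_card_inter (S P) (S Q)
    rw [hSc, hSc] at h1
    have h2 : 1 ≤ (S P ∩ S Q).card := by
      rw [Nat.one_le_iff_ne_zero, Ne, Finset.card_eq_zero]
      intro h
      have : f (t, P t) ∈ S P ∩ S Q := by
        rw [Finset.mem_inter]
        constructor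
        · exact Finset.mem_image_of_mem (fun t => f (t, P t)) (Finset.mem_univ t)
        · rw [ht]
          exact Finset.mem_image_of_mem (fun t => f (t, Q t)) (Finset.mem_univ t)
      rw [h] at this
      simp at this
    have h3 : (S P ∪ (S Q ∪ Z)).card ≤ (S P ∪ S Q).card + Z.card := by
      rw [← Finset.union_assoc]
      exact Finset.card_union_le _ _
    omega
  have hcardB : ∀ P Q : Fin s → Fin q, (∀ t, P t ≠ Q t) → (S P ∪ (S Q ∪ Z)).card = k := by
    intro P Q h
    rw [Finset.card_union_of_disjoint, Finset.card_union_of_disjoint (hSZ Q), hSc, hSc, hZc]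
    · omega
    · rw [Finset.disjoint_union_right]
      refine ⟨?_, hSZ P⟩
      rw [Finset.disjoint_left]
      intro x hx hx'
      obtain ⟨t, _, rfl⟩ := Finset.mem_image.mp hx
      obtain ⟨t', _, h'⟩ := Finset.mem_image.mp hx'
      have h2 := Prod.ext_iff.mp (hf h')
      have h3 : t' = t := h2.1
      have h4 : Q t' = P t := h2.2
      rw [h3] at h4
      exact h t h4.symm
  have hk2 := key s q l hq (Y := Fin m × Finset (Fin k))
    (fun y P => if hit (H y.1) (S P) = y.2 then 1 else 0)
    (fun y Q => if y.2 ∪ hit (H y.1) (S Q ∪ Z) = univ then 1 else 0)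
    (fun P Q => ((univ.filter fun i => hit (H i) (S P ∪ (S Q ∪ Z)) = univ).card : ℝ))
    ?_ ?_ ?_
  · simpa [Fintype.card_prod, Fintype.card_finset] using hk2
  · intro P Q
    rw [Fintype.sum_prod_type, Finset.card_filter]
    push_cast
    refine Finset.sum_congr rfl fun i _ => ?_
    simp only [hit_union]
    rw [Finset.sum_eq_single (hit (H i) (S P))]
    · rw [if_pos rfl, one_mul]
    · intro J _ hJ
      rw [if_neg (fun h => hJ h.symm), zero_mul]
    · intro h
      exact absurd (Finset.mem_univ _) h
  · intro P Q hPQ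
    have h := hcardA P Q hPQ
    have h2 : (univ.filter fun i => hit (H i) (S P ∪ (S Q ∪ Z)) = univ) = ∅ := by
      rw [Finset.filter_eq_empty_iff]
      intro i _ hi
      have h3 := hit_card_le (H i) (S P ∪ (S Q ∪ Z))
      rw [hi, Finset.card_univ, Fintype.card_fin] at h3
      omega
    rw [h2]
    simp
  · intro P Q hPQ
    have h := hcardB P Q hPQ
    have h2 := hH _ h
    have h3 : mult H (S P ∪ (S Q ∪ Z))
        = (univ.filter fun i => hit (H i) (S P ∪ (S Q ∪ Z)) = univ).card := by
      unfold mult
      congr 1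
      refine Finset.filter_congr fun i _ => ?_
      exact isEdge_iff (H i) _ h
    rw [h3] at h2
    refine ⟨⟨(univ.filter fun i => hit (H i) (S P ∪ (S Q ∪ Z)) = univ).card - 1, by omega⟩, ?_⟩
    rw [← Nat.cast_one (R := ℝ), ← Nat.cast_add]
    congr 1
    simp only
    omega

/-- For all `k ≥ 2` and `l ≥ 1` there is `c > 0` such that
`c * n ^ (⌊k/2⌋ / l) ≤ m_{k,l}(n)` for all `n ≥ k`. -/
theorem result : ∀ k l : ℕ, 2 ≤ k → 1 ≤ l → ∃ c : ℝ, 0 < c ∧
    ∀ n : ℕ, k ≤ n → c * (n : ℝ) ^ (((k / 2 : ℕ) : ℝ) / (l : ℝ)) ≤ (mkl k l n : ℝ) := by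
  intro k l hk hl
  set s := k / 2 with hs
  have hs1 : 1 ≤ s := by omega
  have hsR : (1 : ℝ) ≤ (s : ℝ) := by exact_mod_cast hs1
  have hlR : (1 : ℝ) ≤ (l : ℝ) := by exact_mod_cast hl
  set e : ℝ := (s : ℝ) / (l : ℝ) with he
  have he0 : 0 ≤ e := by positivity
  have h2s : (0 : ℝ) < 2 * s := by linarith
  refine ⟨((2 : ℝ) ^ (k + 1))⁻¹ * ((2 * (s : ℝ)) ^ e)⁻¹, by positivity, ?_⟩
  intro n hn
  obtain ⟨H, hH⟩ : ∃ H : Fin (mkl k l n) → KPartite k n, IsCovering l H :=
    Nat.sInf_mem (s := {m | ∃ H : Fin m → KPartite k n, IsCovering l H})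
      (exists_covering k l n hl)
  generalize mkl k l n = m at H hH ⊢
  have hm1 : 1 ≤ m := by
    obtain ⟨e, -, he⟩ := Finset.exists_subset_card_eq (s := (univ : Finset (Fin n))) (n := k)
      (by rw [Finset.card_univ, Fintype.card_fin]; exact hn)
    have h := (hH e he).1
    have h2 : mult H e ≤ m := by
      classical
      unfold mult
      exact (Finset.card_filter_le _ _).trans (by rw [Finset.card_univ, Fintype.card_fin])
    omega
  have hm1R : (1 : ℝ) ≤ (m : ℝ) := by exact_mod_cast hm1
  have h2k : (0 : ℝ) < (2 : ℝ) ^ (k + 1) := by positivity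
  -- rewrite the left side
  have hlhs : ((2 : ℝ) ^ (k + 1))⁻¹ * ((2 * (s : ℝ)) ^ e)⁻¹ * (n : ℝ) ^ e
      = ((2 : ℝ) ^ (k + 1))⁻¹ * ((n : ℝ) / (2 * s)) ^ e := by
    rw [Real.div_rpow (by positivity) (by positivity)]
    field_simp
  rw [hlhs]
  rw [inv_mul_le_iff₀ h2k]
  by_cases hbig : 2 * s + 1 ≤ n
  · -- main case
    set q := (n - 1) / s with hq
    have hq2 : 2 ≤ q := by
      rw [hq, Nat.le_div_iff_mul_le (by omega)]
      omega
    have hsq : s * q + 1 ≤ n := by
      have := Nat.mul_div_le (n - 1) s
      rw [← hq] at this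
      omega
    have hmain := main_ineq H hH hs hq2 hsq
    have hnq : (n : ℝ) / (2 * s) ≤ q := by
      rw [div_le_iff₀ h2s]
      have h1 : n - 1 < s * (q + 1) := by
        have := Nat.lt_mul_div_succ (n - 1) (show 0 < s by omega)
        exact this
      have h2 : n ≤ q * (2 * s) := by
        have h3 : s * (q + 1) = s * q + s := by ring
        have h4 : s * 2 ≤ s * q := Nat.mul_le_mul_left s hq2
        have h5 : q * (2 * s) = 2 * (s * q) := by ring
        omega
      exact_mod_cast h2
    have h1 : ((n : ℝ) / (2 * s)) ^ e ≤ (q : ℝ) ^ e :=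
      Real.rpow_le_rpow (by positivity) hnq he0
    have h2 : (q : ℝ) ^ e = ((q : ℝ) ^ s) ^ (1 / (l : ℝ)) := by
      rw [← Real.rpow_natCast, ← Real.rpow_mul (by positivity)]
      congr 1
      rw [he]
      ring
    have h3 : ((q : ℝ) ^ s) ≤ ((1 + m * 2 ^ k : ℕ) : ℝ) ^ l := by exact_mod_cast hmain
    have h4 : ((q : ℝ) ^ s) ^ (1 / (l : ℝ)) ≤ (((1 + m * 2 ^ k : ℕ) : ℝ) ^ l) ^ (1 / (l : ℝ)) :=
      Real.rpow_le_rpow (by positivity) h3 (by positivity)
    have h5 : (((1 + m * 2 ^ k : ℕ) : ℝ) ^ l) ^ (1 / (l : ℝ)) = ((1 + m * 2 ^ k : ℕ) : ℝ) := by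
      rw [one_div]
      exact Real.pow_rpow_inv_natCast (by positivity) (by omega)
    have h6 : ((1 + m * 2 ^ k : ℕ) : ℝ) ≤ (2 : ℝ) ^ (k + 1) * m := by
      push_cast
      have h7 : (1 : ℝ) ≤ m * 2 ^ k := by
        have : (1 : ℝ) ≤ 2 ^ k := one_le_pow₀ (by norm_num)
        nlinarith
      rw [pow_succ]
      linarith
    linarith
  · -- n = 2 s
    have hn2 : (n : ℝ) = 2 * s := by
      have : n = 2 * s := by omega
      rw [this]
      push_cast
      ring
    rw [hn2, div_self (by positivity), Real.one_rpow]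
    have : (1 : ℝ) ≤ 2 ^ (k + 1) := one_le_pow₀ (by norm_num)
    nlinarith

end Pool.Agent.Results.MP_f91e62_co.LowerBound
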